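import Pool.Agent.Lib.MP_cea16d_an.Koopman

/-!
# Unconditional Koopman orbits in `L¹` for horocycle maps

Let `Γ` be a discrete cocompact subgroup of `PSL(2,ℝ)`, `X = Γ \ PSL(2,ℝ)`, `μ` the invariant
Borel probability measure on `X`, `T` the time-one map of the horocycle flow and `U f = f ∘ T`
its Koopman operator on `L¹(X, μ)` (real or complex scalars). For every `r ≥ 1` there are
nonzero `η_1, …, η_r ∈ L¹` such that the family `(U^k η_j)_{j, k}` is unconditional in `L¹`;
for `r = 1` this is a nonzero `η` whose orbit `(U^k η)_{k ∈ ℤ}` is unconditional.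
-/

open MeasureTheory

namespace Pool.Agent.Results.MP_cea16d_an.UnconditionalOrbits

open Pool.Agent.Horo

/-- For every compact quotient `Γ \ PSL(2,ℝ)` with its invariant probability measure, real or
complex scalars and every `r ≥ 1` there are nonzero integrable functions `η_1, …, η_r` such that
the family `η_j ∘ T^k = U^k η_j` (`j ≤ r`, `k ∈ ℤ`) is unconditional in `L¹`. -/
theorem result (Γ : Subgroup PSL2) [DiscreteTopology Γ] [CompactSpace (XG Γ)]
    (μ : Measure (XG Γ)) [IsProbabilityMeasure μ]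
    (hμ : ∀ h : PSL2, MeasurePreserving (rtrans Γ h) μ μ) (𝕜 : Type) [RCLike 𝕜]
    (r : ℕ) (hr : 1 ≤ r) :
    ∃ η : Fin r → XG Γ → 𝕜, (∀ j, Integrable (η j) μ ∧ ¬ η j =ᵐ[μ] 0) ∧
      L1Unconditional μ fun (p : Fin r × ℤ) (x : XG Γ) => η p.1 ((horo Γ ^ p.2) x) :=
  exists_family hμ 𝕜 r hr

end Pool.Agent.Results.MP_cea16d_an.UnconditionalOrbits
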